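import Pool.Agent.Helper281.Sc.LN

set_option autoImplicit false

/-!
# Narrow σ-ideals

We show that a Borel set with countable sections in one direction has, for all but countably many
points of the other direction, sections in the ideal.
-/

namespace Run7.h383.CQI

open Set Filter Topology MeasureTheory

/-- a σ-ideal of subsets of `Y` -/
structure SigmaIdeal {Y : Type} (J : Set (Set Y)) : Prop where
  empty : (∅ : Set Y) ∈ J
  mono : ∀ A B : Set Y, A ⊆ B → B ∈ J → A ∈ J
  iUnion : ∀ A : ℕ → Set Y, (∀ n, A n ∈ J) → (⋃ n, A n) ∈ J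

/-- A σ-ideal of subsets of a measurable space is narrow if every measurable function with complex
values has only countably many fibres which do not belong to the ideal. -/
structure Narrow {Y : Type} [MeasurableSpace Y] (J : Set (Set Y)) : Prop extends
    SigmaIdeal J where
  fibers : ∀ g : Y → ℂ, Measurable g → {t : ℂ | g ⁻¹' {t} ∉ J}.Countable

theorem SigmaIdeal.union {Y : Type} {J : Set (Set Y)} (hJ : SigmaIdeal J) {A B : Set Y}
    (hA : A ∈ J) (hB : B ∈ J) : A ∪ B ∈ J := by
  refine hJ.mono _ _ ?_ (hJ.iUnion (fun n => if n = 0 then A else B) ?_)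
  · rintro y (hy | hy)
    · exact mem_iUnion.2 ⟨0, by simpa using hy⟩
    · exact mem_iUnion.2 ⟨1, by simpa using hy⟩
  · intro n
    by_cases hn : n = 0
    · simpa [hn] using hA
    · simpa [hn] using hB

/-- σ-ideals with the countable chain condition are narrow -/
theorem narrow_of_ccc {Y : Type} [MeasurableSpace Y] {J : Set (Set Y)} (hJ : SigmaIdeal J)
    (ccc : ∀ 𝒜 : Set (Set Y), (∀ A ∈ 𝒜, MeasurableSet A) → 𝒜.PairwiseDisjoint id →
      {A | A ∈ 𝒜 ∧ A ∉ J}.Countable) : Narrow J where
  toSigmaIdeal := hJ
  fibers := by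
    intro g hg
    have h1 := ccc (range fun t : ℂ => g ⁻¹' {t}) (by
      rintro _ ⟨t, rfl⟩
      exact hg (measurableSet_singleton t)) (by
      rintro _ ⟨t, rfl⟩ _ ⟨t', rfl⟩ hne
      refine Set.disjoint_left.2 fun y hy hy' => hne ?_
      have h1 : g y = t := hy
      have h2 : g y = t' := hy'
      have : t = t' := h1.symm.trans h2
      rw [this])
    refine Set.MapsTo.countable_of_injOn (f := fun t : ℂ => g ⁻¹' {t}) ?_ ?_ h1
    · intro t ht
      exact ⟨⟨t, rfl⟩, ht⟩
    · intro t ht t' ht' h
      by_contra hne
      apply ht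
      have he : g ⁻¹' {t} = (∅ : Set Y) := by
        rw [eq_empty_iff_forall_notMem]
        intro y hy
        have hy' : y ∈ g ⁻¹' {t'} := by
          have h' : g ⁻¹' {t} = g ⁻¹' {t'} := h
          rw [← h']
          exact hy
        have h1 : g y = t := hy
        have h2 : g y = t' := hy'
        exact hne (h1.symm.trans h2)
      rw [he]
      exact hJ.empty

/-- the theorem of Fubini for countable sets and a narrow σ-ideal -/
theorem Narrow.fubini {Y : Type} [MeasurableSpace Y] [StandardBorelSpace Y] {J : Set (Set Y)}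
    (hJ : Narrow J) {W : Set (Y × ℂ)} (hW : MeasurableSet W)
    (hc : ∀ y, {t | (y, t) ∈ W}.Countable) :
    {t : ℂ | {y | (y, t) ∈ W} ∉ J}.Countable := by
  classical
  let := upgradeStandardBorel Y
  obtain ⟨G, hG1, hG2, hG3⟩ := Pool.Agent.Helper281.LN.lusin_novikov hW hc
  have hinj : ∀ n, InjOn Prod.fst (G n) := by
    rintro n ⟨y, t⟩ h ⟨y', t'⟩ h' he
    have he' : y = y' := he
    subst he'
    rw [hG3 n y t t' h h']
  have key : ∀ n, {t : ℂ | {y | (y, t) ∈ G n} ∉ J}.Countable := by
    intro n
    let g : Y → ℂ := fun y => if h : ∃ t, (y, t) ∈ G n then h.choose else 0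
    have hg1 : ∀ y t, (y, t) ∈ G n → g y = t := by
      intro y t h
      have hex : ∃ t, (y, t) ∈ G n := ⟨t, h⟩
      show (if h : ∃ t, (y, t) ∈ G n then h.choose else 0) = t
      rw [dif_pos hex]
      exact hG3 n y _ _ hex.choose_spec h
    have hg0 : ∀ y, (¬ ∃ t, (y, t) ∈ G n) → g y = 0 := by
      intro y h
      show (if h : ∃ t, (y, t) ∈ G n then h.choose else 0) = 0
      rw [dif_neg h]
    have hg : Measurable g := by
      intro B hB
      have e : g ⁻¹' B = Prod.fst '' (G n ∩ Prod.snd ⁻¹' B) ∪
          {y | y ∉ Prod.fst '' (G n) ∧ (0 : ℂ) ∈ B} := by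
        ext y
        constructor
        · intro hy
          by_cases hex : ∃ t, (y, t) ∈ G n
          · left
            obtain ⟨t, ht⟩ := hex
            refine ⟨(y, t), ⟨ht, ?_⟩, rfl⟩
            show t ∈ B
            rw [← hg1 y t ht]
            exact hy
          · right
            refine ⟨?_, ?_⟩
            · rintro ⟨⟨y', t⟩, ht, he⟩
              have he' : y' = y := he
              subst he'
              exact hex ⟨t, ht⟩
            · rw [← hg0 y hex]
              exact hy
        · rintro (⟨⟨y', t⟩, ⟨ht, htB⟩, he⟩ | ⟨h1, h2⟩)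
          · have he' : y' = y := he
            subst he'
            show g y' ∈ B
            rw [hg1 y' t ht]
            exact htB
          · show g y ∈ B
            rw [hg0 y (fun ⟨t, ht⟩ => h1 ⟨(y, t), ht, rfl⟩)]
            exact h2
      rw [e]
      refine MeasurableSet.union ?_ ?_
      · exact ((hG1 n).inter (measurable_snd hB)).image_of_measurable_injOn measurable_fst
          ((hinj n).mono inter_subset_left)
      · by_cases h0 : (0 : ℂ) ∈ B
        · have : {y | y ∉ Prod.fst '' (G n) ∧ (0 : ℂ) ∈ B} = (Prod.fst '' (G n))ᶜ := by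
            ext y
            exact ⟨fun h => h.1, fun h => ⟨h, h0⟩⟩
          rw [this]
          exact ((hG1 n).image_of_measurable_injOn measurable_fst (hinj n)).compl
        · have : {y | y ∉ Prod.fst '' (G n) ∧ (0 : ℂ) ∈ B} = ∅ := by
            rw [eq_empty_iff_forall_notMem]
            exact fun y h => h0 h.2
          rw [this]
          exact MeasurableSet.empty
    refine (hJ.fibers g hg).mono ?_
    intro t ht h
    refine ht (hJ.mono _ _ ?_ h)
    intro y hy
    exact hg1 y t hy
  refine (countable_iUnion key).mono ?_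
  intro t ht
  by_contra hcon
  rw [mem_iUnion, not_exists] at hcon
  apply ht
  have he : {y | (y, t) ∈ W} = ⋃ n, {y | (y, t) ∈ G n} := by
    ext y
    rw [← hG2]
    simp
  rw [he]
  exact hJ.iUnion _ fun n => not_not.1 (hcon n)

/-- the ideal of meagre sets has the countable chain condition -/
theorem narrow_meagre {Y : Type} [TopologicalSpace Y] [SecondCountableTopology Y] [BaireSpace Y]
    [MeasurableSpace Y] [BorelSpace Y] : Narrow {A : Set Y | IsMeagre A} :=
  narrow_of_ccc
  { empty := IsMeagre.empty
    mono := fun _ _ h hB => hB.mono h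
    iUnion := fun _ h => isMeagre_iUnion h } (by
    classical
    intro 𝒜 hm hd
    have h1 : ∀ A : {A | A ∈ 𝒜 ∧ A ∉ {A : Set Y | IsMeagre A}}, ∃ U : Set Y, IsOpen U ∧
        (A : Set Y) =ᶠ[residual Y] U := fun A => (hm A.1 A.2.1).residualEq_isOpen
    choose U hUo hU using h1
    have h2 : ∀ A : {A | A ∈ 𝒜 ∧ A ∉ {A : Set Y | IsMeagre A}}, ∃ V ∈
        TopologicalSpace.countableBasis Y, V.Nonempty ∧ V ⊆ U A := by
      intro A
      have hne : (U A).Nonempty := by
        rw [nonempty_iff_ne_empty]
        intro he
        apply A.2.2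
        show IsMeagre (A : Set Y)
        rw [IsMeagre]
        have := hU A
        rw [he] at this
        filter_upwards [this] with y hy
        have hy' : (y ∈ (A : Set Y)) = (y ∈ (∅ : Set Y)) := hy
        intro hyA
        rw [hy'] at hyA
        exact hyA
      obtain ⟨y, hy⟩ := hne
      obtain ⟨V, hV, hyV, hVU⟩ :=
        (TopologicalSpace.isBasis_countableBasis Y).exists_subset_of_mem_open hy (hUo A)
      exact ⟨V, hV, ⟨y, hyV⟩, hVU⟩
    choose V hV hVne hVU using h2
    have hcount : (TopologicalSpace.countableBasis Y).Countable :=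
      TopologicalSpace.countable_countableBasis Y
    have : Countable (TopologicalSpace.countableBasis Y) := hcount.to_subtype
    have hinj : Function.Injective
        (fun A : {A | A ∈ 𝒜 ∧ A ∉ {A : Set Y | IsMeagre A}} =>
          (⟨V A, hV A⟩ : TopologicalSpace.countableBasis Y)) := by
      intro A A' h
      by_contra hne
      have hVV : V A = V A' := congrArg Subtype.val h
      have hdisj : Disjoint (A : Set Y) (A' : Set Y) :=
        hd A.2.1 A'.2.1 (fun h => hne (Subtype.ext h))
      have hm' : IsMeagre (U A ∩ U A') := by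
        rw [IsMeagre]
        filter_upwards [hU A, hU A'] with y hy hy'
        have e1 : (y ∈ (A : Set Y)) = (y ∈ U A) := hy
        have e2 : (y ∈ (A' : Set Y)) = (y ∈ U A') := hy'
        rintro ⟨h3, h4⟩
        rw [← e1] at h3
        rw [← e2] at h4
        exact Set.disjoint_left.1 hdisj h3 h4
      refine not_isMeagre_of_isOpen (TopologicalSpace.isOpen_of_mem_countableBasis (hV A))
        (hVne A) (hm'.mono ?_)
      intro y hy
      exact ⟨hVU A hy, hVU A' (hVV ▸ hy)⟩
    exact Set.countable_coe_iff.1 hinj.countable)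

/-- the ideal of null sets has the countable chain condition -/
theorem narrow_null {Y : Type} [MeasurableSpace Y] (μ : Measure Y) [SFinite μ] :
    Narrow {A : Set Y | μ A = 0} :=
  narrow_of_ccc
  { empty := measure_empty
    mono := fun _ _ h hB => measure_mono_null h hB
    iUnion := fun _ h => measure_iUnion_null h } (by
    intro 𝒜 hm hd
    have h1 := Measure.countable_meas_pos_of_disjoint_iUnion (μ := μ)
      (As := fun A : 𝒜 => (A : Set Y)) (fun A => hm A.1 A.2) (by
        intro A A' hne
        exact hd A.2 A'.2 (fun h => hne (Subtype.ext h)))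
    refine (h1.image Subtype.val).mono ?_
    rintro A ⟨hA, hA'⟩
    exact ⟨⟨A, hA⟩, pos_iff_ne_zero.2 hA', rfl⟩)

/-- For a Borel set in a product, the set of points whose section is meagre in a basic open set is
measurable. -/
theorem measurableSet_meagre_basis {S Y : Type} [MeasurableSpace S] [TopologicalSpace Y]
    [SecondCountableTopology Y] [BaireSpace Y] [MeasurableSpace Y] [BorelSpace Y]
    {X : Set (S × Y)} (hX : MeasurableSet X) :
    ∀ V ∈ TopologicalSpace.countableBasis Y,
      MeasurableSet {s : S | IsMeagre ({y | (s, y) ∈ X} ∩ V)} := by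
  classical
  induction X, hX using MeasurableSpace.induction_on_inter generateFrom_prod.symm
    isPiSystem_prod with
  | empty =>
    intro V hV
    have : {s : S | IsMeagre ({y | (s, y) ∈ (∅ : Set (S × Y))} ∩ V)} = univ := by
      rw [eq_univ_iff_forall]
      intro s
      have : ({y | (s, y) ∈ (∅ : Set (S × Y))} ∩ V) = (∅ : Set Y) := by
        ext y
        simp
      show IsMeagre _
      rw [this]
      exact IsMeagre.empty
    rw [this]
    exact MeasurableSet.univ
  | basic t ht =>
    intro V hV
    obtain ⟨A, hA, B, hB, rfl⟩ := ht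
    by_cases hBV : IsMeagre (B ∩ V)
    · have : {s : S | IsMeagre ({y | (s, y) ∈ A ×ˢ B} ∩ V)} = univ := by
        rw [eq_univ_iff_forall]
        intro s
        refine hBV.mono ?_
        intro y hy
        exact ⟨hy.1.2, hy.2⟩
      rw [this]
      exact MeasurableSet.univ
    · have : {s : S | IsMeagre ({y | (s, y) ∈ A ×ˢ B} ∩ V)} = Aᶜ := by
        ext s
        constructor
        · intro hs hsA
          apply hBV
          have hs' : IsMeagre ({y | (s, y) ∈ A ×ˢ B} ∩ V) := hs
          refine hs'.mono ?_
          intro y hy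
          exact ⟨⟨hsA, hy.1⟩, hy.2⟩
        · intro hs
          show IsMeagre _
          have : ({y | (s, y) ∈ A ×ˢ B} ∩ V) = (∅ : Set Y) := by
            rw [eq_empty_iff_forall_notMem]
            intro y hy
            exact hs hy.1.1
          rw [this]
          exact IsMeagre.empty
      rw [this]
      exact MeasurableSet.compl hA
  | compl t ht ih =>
    intro V hV
    have key : {s : S | IsMeagre ({y | (s, y) ∈ tᶜ} ∩ V)} =
        ⋂ W ∈ {W | W ∈ TopologicalSpace.countableBasis Y ∧ W ⊆ V},
          {s : S | IsMeagre ({y | (s, y) ∈ t} ∩ W)}ᶜ := by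
      ext s
      simp only [mem_iInter]
      constructor
      · rintro hs W ⟨hW, hWV⟩ hs'
        have hs1 : IsMeagre ({y | (s, y) ∈ tᶜ} ∩ V) := hs
        have hs2 : IsMeagre ({y | (s, y) ∈ t} ∩ W) := hs'
        refine not_isMeagre_of_isOpen (TopologicalSpace.isOpen_of_mem_countableBasis hW)
          (TopologicalSpace.nonempty_of_mem_countableBasis hW) ((hs1.union hs2).mono ?_)
        intro y hy
        by_cases h : (s, y) ∈ t
        · exact Or.inr ⟨h, hy⟩
        · exact Or.inl ⟨h, hWV hy⟩
      · intro h
        by_contra hcon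
        have hcon' : ¬ IsMeagre ({y | (s, y) ∈ tᶜ} ∩ V) := hcon
        have hsec : MeasurableSet {y | (s, y) ∈ tᶜ} := measurable_prodMk_left ht.compl
        obtain ⟨O, hO, hOe⟩ := hsec.residualEq_isOpen
        have hd : IsMeagre {y | ¬ ((s, y) ∈ tᶜ ↔ y ∈ O)} := by
          rw [IsMeagre]
          filter_upwards [hOe] with y hy
          have e : ((s, y) ∈ tᶜ) = (y ∈ O) := hy
          intro h3
          exact h3 (by rw [e])
        have hne : (O ∩ V).Nonempty := by
          rw [nonempty_iff_ne_empty]
          intro he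
          apply hcon'
          refine hd.mono ?_
          rintro y ⟨h1, h2⟩ h3
          have : y ∈ O ∩ V := ⟨h3.1 h1, h2⟩
          rw [he] at this
          exact this
        obtain ⟨y, hy⟩ := hne
        obtain ⟨W, hW, hyW, hWO⟩ :=
          (TopologicalSpace.isBasis_countableBasis Y).exists_subset_of_mem_open hy
            (hO.inter (TopologicalSpace.isOpen_of_mem_countableBasis hV))
        refine h W ⟨hW, fun z hz => (hWO hz).2⟩ (hd.mono ?_)
        rintro z ⟨h1, h2⟩ h3
        exact h3.2 (hWO h2).1 h1
    rw [key]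
    refine MeasurableSet.biInter ?_ fun W hW => (ih W hW.1).compl
    exact (TopologicalSpace.countable_countableBasis Y).mono fun W hW => hW.1
  | iUnion f hd hf ih =>
    intro V hV
    have key : {s : S | IsMeagre ({y | (s, y) ∈ ⋃ i, f i} ∩ V)} =
        ⋂ i, {s : S | IsMeagre ({y | (s, y) ∈ f i} ∩ V)} := by
      ext s
      simp only [mem_iInter]
      constructor
      · intro h i
        have h' : IsMeagre ({y | (s, y) ∈ ⋃ i, f i} ∩ V) := h
        refine h'.mono ?_
        intro y hy
        exact ⟨mem_iUnion.2 ⟨i, hy.1⟩, hy.2⟩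
      · intro h
        refine (isMeagre_iUnion (fun i => h i)).mono ?_
        rintro y ⟨hy1, hy2⟩
        obtain ⟨i, hi⟩ := mem_iUnion.1 hy1
        exact mem_iUnion.2 ⟨i, hi, hy2⟩
    rw [key]
    exact MeasurableSet.iInter fun i => ih i V hV

/-- For a Borel set in a product, the set of points whose section is not meagre is measurable. -/
theorem measurableSet_nonmeagre {S Y : Type} [MeasurableSpace S] [TopologicalSpace Y]
    [SecondCountableTopology Y] [BaireSpace Y] [MeasurableSpace Y] [BorelSpace Y]
    {X : Set (S × Y)} (hX : MeasurableSet X) :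
    MeasurableSet {s : S | ¬ IsMeagre {y | (s, y) ∈ X}} := by
  have key : {s : S | ¬ IsMeagre {y | (s, y) ∈ X}} =
      (⋂ V ∈ TopologicalSpace.countableBasis Y,
        {s : S | IsMeagre ({y | (s, y) ∈ X} ∩ V)})ᶜ := by
    ext s
    show ¬ IsMeagre {y | (s, y) ∈ X} ↔ ¬ _
    rw [not_iff_not]
    simp only [mem_iInter]
    constructor
    · intro h V _
      exact h.mono inter_subset_left
    · intro h
      have h1 : IsMeagre (⋃ V ∈ TopologicalSpace.countableBasis Y, ({y | (s, y) ∈ X} ∩ V)) :=
        isMeagre_biUnion (TopologicalSpace.countable_countableBasis Y) h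
      refine h1.mono fun y hy => ?_
      obtain ⟨V, hV, hyV, -⟩ := (TopologicalSpace.isBasis_countableBasis Y).exists_subset_of_mem_open
        (mem_univ y) isOpen_univ
      exact mem_biUnion hV ⟨hy, hyV⟩
  rw [key]
  exact (MeasurableSet.biInter (TopologicalSpace.countable_countableBasis Y)
    (measurableSet_meagre_basis hX)).compl

end Run7.h383.CQI
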