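import Pool.Agent.TH735.QM.Family
import Pool.Agent.Run7.h383.CQI.Ccc

set_option autoImplicit false

/-!
# Generalized quantifiers which are invariant modulo a narrow σ-ideal
-/

namespace Run7.h383.CQI

open Set Filter Topology MeasureTheory Pool.Agent.TH735.QM

/-- If `ψ(·, y)` is constant off a countable subset of an open set `U`, for every `y`, then outside of
ONE countable set all the functions `ψ(t, ·)` are equal modulo the ideal. -/
theorem Narrow.const_mod {Y Z : Type} [MeasurableSpace Y] [StandardBorelSpace Y]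
    [MeasurableSpace Z] [MeasurableSpace.CountablySeparated Z] {J : Set (Set Y)} (hJ : Narrow J)
    {ψ : ℂ → Y → Z} (hψ : Measurable fun p : ℂ × Y => ψ p.1 p.2)
    {U : Set ℂ} (hU : IsOpen U) (h : ∀ (y : Y) (B : Set Z), MeasurableSet B →
      QmOn U {t | ψ t y ∈ B}) :
    ∃ B : Set ℂ, B.Countable ∧ ∀ t ∈ U, t ∉ B → ∀ t' ∈ U, t' ∉ B →
      {y | ψ t y ≠ ψ t' y} ∈ J := by
  classical
  rcases U.eq_empty_or_nonempty with rfl | hne
  · exact ⟨∅, countable_empty, fun t ht => absurd ht (notMem_empty t)⟩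
  obtain ⟨S, hS, hsep⟩ := exists_seq_separating Z (p := MeasurableSet) (s₀ := ∅)
    MeasurableSet.empty univ
  have hf : Measurable (fun p : Y × ℂ => ψ p.2 p.1) :=
    hψ.comp (measurable_snd.prodMk measurable_fst)
  have hT : ∀ n, MeasurableSet {p : Y × ℂ | p.2 ∈ U ∧ ψ p.2 p.1 ∈ S n} := fun n =>
    (measurable_snd hU.measurableSet).inter (hf (hS n))
  let A : ℕ → Set Y := fun n => {y | (volume : Measure ℂ) {t | t ∈ U ∧ ψ t y ∈ S n} ≠ 0}
  have hA : ∀ n, MeasurableSet (A n) := by
    intro n
    have h1 : Measurable (fun y : Y => (volume : Measure ℂ)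
        (Prod.mk y ⁻¹' {p : Y × ℂ | p.2 ∈ U ∧ ψ p.2 p.1 ∈ S n})) :=
      measurable_measure_prodMk_left (hT n)
    exact h1 (measurableSet_singleton 0).compl
  let W : ℕ → Set (Y × ℂ) := fun n => {p | p.2 ∈ U ∧ ¬ (ψ p.2 p.1 ∈ S n ↔ p.1 ∈ A n)}
  have hW : ∀ n, MeasurableSet (W n) := by
    intro n
    have e : W n = ({p : Y × ℂ | p.2 ∈ U ∧ ψ p.2 p.1 ∈ S n} ∩ (Prod.fst ⁻¹' (A n))ᶜ) ∪
        (((Prod.snd ⁻¹' U) ∩ (Prod.fst ⁻¹' (A n))) \
          {p : Y × ℂ | p.2 ∈ U ∧ ψ p.2 p.1 ∈ S n}) := by
      ext p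
      show (p.2 ∈ U ∧ ¬ (ψ p.2 p.1 ∈ S n ↔ p.1 ∈ A n)) ↔
        (((p.2 ∈ U ∧ ψ p.2 p.1 ∈ S n) ∧ ¬ p.1 ∈ A n) ∨
          ((p.2 ∈ U ∧ p.1 ∈ A n) ∧ ¬ (p.2 ∈ U ∧ ψ p.2 p.1 ∈ S n)))
      tauto
    rw [e]
    exact ((hT n).inter (measurable_fst (hA n)).compl).union
      (((measurable_snd hU.measurableSet).inter (measurable_fst (hA n))).diff (hT n))
  have hWc : ∀ n y, {t | (y, t) ∈ W n}.Countable := by
    intro n y
    rcases h y (S n) (hS n) with hc | hc
    · have hy : y ∉ A n := fun hy => hy (Set.Countable.measure_zero hc _)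
      refine hc.mono ?_
      rintro t ⟨ht, ht'⟩
      refine ⟨ht, ?_⟩
      show ψ t y ∈ S n
      by_contra hcon
      exact ht' ⟨fun h => absurd h hcon, fun h => absurd h hy⟩
    · have hy : y ∈ A n := by
        intro h0
        have h1 : (volume : Measure ℂ) (U \ {t | ψ t y ∈ S n}) = 0 := hc.measure_zero _
        have h2 : (volume : Measure ℂ) U = 0 := by
          refine measure_mono_null ?_ (measure_union_null h0 h1)
          intro t ht
          by_cases h3 : ψ t y ∈ S n
          · exact Or.inl ⟨ht, h3⟩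
          · exact Or.inr ⟨ht, h3⟩
        exact hU.measure_ne_zero _ hne h2
      refine hc.mono ?_
      rintro t ⟨ht, ht'⟩
      exact ⟨ht, fun h3 => ht' ⟨fun _ => hy, fun _ => h3⟩⟩
  refine ⟨⋃ n, {t : ℂ | {y | (y, t) ∈ W n} ∉ J},
    countable_iUnion fun n => hJ.fubini (hW n) (hWc n), ?_⟩
  intro t ht htB t' ht' htB'
  have key : ∀ t, t ∉ (⋃ n, {t : ℂ | {y | (y, t) ∈ W n} ∉ J}) →
      (⋃ n, {y | (y, t) ∈ W n}) ∈ J := by
    intro t ht
    refine hJ.iUnion _ fun n => ?_
    by_contra hcon
    exact ht (mem_iUnion.2 ⟨n, hcon⟩)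
  refine hJ.mono _ _ ?_ (hJ.toSigmaIdeal.union (key t htB) (key t' htB'))
  intro y hy
  by_contra hcon
  apply hy
  refine hsep _ (mem_univ _) _ (mem_univ _) fun n => ?_
  have h1 : (ψ t y ∈ S n ↔ y ∈ A n) := by
    by_contra h1
    exact hcon (Or.inl (mem_iUnion.2 ⟨n, ht, h1⟩))
  have h2 : (ψ t' y ∈ S n ↔ y ∈ A n) := by
    by_contra h1
    exact hcon (Or.inr (mem_iUnion.2 ⟨n, ht', h1⟩))
  exact h1.trans h2.symm

/-- Quantifiers which are invariant modulo the ideal preserve the property of being countable or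
cocountable in an open set. -/
theorem Narrow.qmOn {Y Z : Type} [MeasurableSpace Y] [StandardBorelSpace Y]
    [MeasurableSpace Z] [MeasurableSpace.CountablySeparated Z] {J : Set (Set Y)} (hJ : Narrow J)
    {ψ : ℂ → Y → Z} (hψ : Measurable fun p : ℂ × Y => ψ p.1 p.2)
    {U : Set ℂ} (hU : IsOpen U) (h : ∀ (y : Y) (B : Set Z), MeasurableSet B →
      QmOn U {t | ψ t y ∈ B})
    {P : Set (Y → Z)} (hP : ∀ f g : Y → Z, f ∈ P → {y | f y ≠ g y} ∈ J → g ∈ P) :
    QmOn U {t | ψ t ∈ P} := by
  obtain ⟨B, hB, hBt⟩ := hJ.const_mod hψ hU h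
  by_cases hex : ∃ t ∈ U, t ∉ B ∧ ψ t ∈ P
  · obtain ⟨t0, ht0, ht0B, h0⟩ := hex
    right
    refine hB.mono ?_
    rintro t ⟨ht, ht'⟩
    by_contra htB
    exact ht' (hP _ _ h0 (hBt t0 ht0 ht0B t ht htB))
  · left
    push Not at hex
    refine hB.mono ?_
    rintro t ⟨ht, ht'⟩
    by_contra htB
    exact hex t ht htB ht'

/-- Quantifiers which are invariant modulo the ideal preserve the property of having countable or
cocountable traces on analytic curves. -/
theorem Narrow.quant {m : ℕ} {Y Z : Type} [MeasurableSpace Y] [StandardBorelSpace Y]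
    [MeasurableSpace Z] [MeasurableSpace.CountablySeparated Z] {J : Set (Set Y)} (hJ : Narrow J)
    {φ : (Fin m → ℂ) → Y → Z} (hφ : Measurable fun p : (Fin m → ℂ) × Y => φ p.1 p.2)
    (h : ∀ (y : Y) (B : Set Z), MeasurableSet B → CQ m {s | φ s y ∈ B})
    {P : Set (Y → Z)} (hP : ∀ f g : Y → Z, f ∈ P → {y | f y ≠ g y} ∈ J → g ∈ P) :
    CQ m {s | φ s ∈ P} := by
  classical
  intro U hU hUc γ hγ
  have hγc : ContinuousOn γ U := hγ.continuousOn
  have hγm : Measurable (U.piecewise γ (fun _ => 0)) :=
    hγc.measurable_piecewise continuousOn_const hU.measurableSet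
  set γ' := U.piecewise γ (fun _ => 0) with hγ'
  have heq : ∀ t ∈ U, γ' t = γ t := fun t ht => Set.piecewise_eq_of_mem _ _ _ ht
  have h1 := hJ.qmOn (ψ := fun t y => φ (γ' t) y) (U := U) (P := P)
    (hφ.comp ((hγm.comp measurable_fst).prodMk measurable_snd)) hU (by
      intro y B hB
      refine QmOn.congr countable_empty (h y B hB U hU hUc γ hγ) fun t ht _ => ?_
      show φ (γ t) y ∈ B ↔ φ (γ' t) y ∈ B
      rw [heq t ht]) hP
  refine QmOn.congr countable_empty h1 fun t ht _ => ?_
  show φ (γ' t) ∈ P ↔ φ (γ t) ∈ P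
  rw [heq t ht]

/-- Narrow σ-ideals are exactly the σ-ideals for which the quantifier `does not belong to the ideal`
preserves the property of being countable or cocountable, for sections of Borel sets. -/
theorem narrow_iff {Y : Type} [MeasurableSpace Y] [StandardBorelSpace Y] {J : Set (Set Y)}
    (hJ : SigmaIdeal J) : Narrow J ↔
      ∀ X : Set (ℂ × Y), MeasurableSet X →
        (∀ y, {s | (s, y) ∈ X}.Countable ∨ {s | (s, y) ∉ X}.Countable) →
        {s | {y | (s, y) ∈ X} ∉ J}.Countable ∨ {s | {y | (s, y) ∈ X} ∈ J}.Countable := by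
  classical
  constructor
  · intro hN X hX h
    have h1 := hN.qmOn (Z := Bool) (ψ := fun t y => decide ((t, y) ∈ X)) (U := univ)
      (P := {f | {y | f y = true} ∉ J})
      (measurable_to_bool (by
        have : (fun p : ℂ × Y => decide ((p.1, p.2) ∈ X)) ⁻¹' {true} = X := by
          ext p
          simp
        rw [this]
        exact hX)) isOpen_univ (by
        intro y B _
        have hq : QmOn univ {t : ℂ | (t, y) ∈ X} := by
          rcases h y with h | h
          · exact Or.inl (h.mono fun t ht => ht.2)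
          · exact Or.inr (h.mono fun t ht => ht.2)
        by_cases hT : true ∈ B <;> by_cases hF : false ∈ B
        · have : {t : ℂ | decide ((t, y) ∈ X) ∈ B} = univ := by
            ext t
            by_cases ht : (t, y) ∈ X <;> simp [ht, hT, hF]
          rw [this]
          exact Or.inr (by simp)
        · have : {t : ℂ | decide ((t, y) ∈ X) ∈ B} = {t : ℂ | (t, y) ∈ X} := by
            ext t
            by_cases ht : (t, y) ∈ X <;> simp [ht, hT, hF]
          rw [this]
          exact hq
        · have : {t : ℂ | decide ((t, y) ∈ X) ∈ B} = {t : ℂ | (t, y) ∈ X}ᶜ := by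
            ext t
            by_cases ht : (t, y) ∈ X <;> simp [ht, hT, hF]
          rw [this]
          exact hq.compl
        · have : {t : ℂ | decide ((t, y) ∈ X) ∈ B} = ∅ := by
            ext t
            by_cases ht : (t, y) ∈ X <;> simp [ht, hT, hF]
          rw [this]
          exact Or.inl (by simp)) (by
        intro f g hf hfg hg
        apply hf
        refine hJ.mono _ _ ?_ (hJ.union hfg hg)
        intro y hy
        have hy' : f y = true := hy
        by_cases hgy : g y = true
        · exact Or.inr hgy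
        · left
          intro he
          exact hgy (he ▸ hy'))
    rcases h1 with h1 | h1
    · left
      refine h1.mono ?_
      intro s hs
      refine ⟨mem_univ _, ?_⟩
      show {y | decide ((s, y) ∈ X) = true} ∉ J
      simpa using hs
    · right
      refine h1.mono ?_
      intro s hs
      refine ⟨mem_univ _, fun hs' => ?_⟩
      have hs1 : {y | decide ((s, y) ∈ X) = true} ∉ J := hs'
      apply hs1
      simpa using hs
  · intro h
    refine { toSigmaIdeal := hJ, fibers := fun g hg => ?_ }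
    have hR : ¬ Countable ℝ := by
      rw [← Cardinal.mk_le_aleph0_iff, not_le, Cardinal.mk_real]
      exact Cardinal.aleph0_lt_continuum
    have hC : ¬ Countable ℂ := by
      rw [← Cardinal.mk_le_aleph0_iff, not_le, Cardinal.mk_complex]
      exact Cardinal.aleph0_lt_continuum
    let e : ℂ ≃ᵐ ℝ := PolishSpace.measurableEquivOfNotCountable hC hR
    let ι : ℂ → ℂ := fun z => ((e z : ℝ) : ℂ)
    have hι : Measurable ι := Complex.measurable_ofReal.comp e.measurable
    have hιi : Function.Injective ι := fun z w hzw => e.injective (Complex.ofReal_injective hzw)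
    have hX : MeasurableSet {p : ℂ × Y | ι (g p.2) = p.1} :=
      measurableSet_eq_fun ((hι.comp hg).comp measurable_snd) measurable_fst
    have h1 := h {p : ℂ × Y | ι (g p.2) = p.1} hX (by
      intro y
      left
      refine (countable_singleton (ι (g y))).mono ?_
      intro s hs
      exact (show ι (g y) = s from hs).symm)
    rcases h1 with h1 | h1
    · refine Set.MapsTo.countable_of_injOn (f := ι) ?_ hιi.injOn h1
      intro t ht hs
      apply ht
      refine hJ.mono _ _ ?_ hs
      intro y hy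
      show ι (g y) = ι t
      rw [show g y = t from hy]
    · exfalso
      refine hR (Set.countable_univ_iff.1 ?_)
      refine Set.MapsTo.countable_of_injOn (f := fun x : ℝ => (x : ℂ) + Complex.I) (t :=
        {s | {y | (s, y) ∈ {p : ℂ × Y | ι (g p.2) = p.1}} ∈ J}) ?_ ?_ h1
      · intro x _
        have he : {y | ((x : ℂ) + Complex.I, y) ∈ {p : ℂ × Y | ι (g p.2) = p.1}} = ∅ := by
          rw [eq_empty_iff_forall_notMem]
          intro y hy
          have hy' : ((e (g y) : ℝ) : ℂ) = (x : ℂ) + Complex.I := hy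
          have h2 := congrArg Complex.im hy'
          simp at h2
        show {y | ((x : ℂ) + Complex.I, y) ∈ {p : ℂ × Y | ι (g p.2) = p.1}} ∈ J
        rw [he]
        exact hJ.empty
      · intro x _ x' _ hxx
        have h2 := congrArg Complex.re hxx
        simpa using h2

end Run7.h383.CQI
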